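import Pool.Agent.Helper38K9.PT.App
import Pool.Agent.Helper38K9.PT.FK
import Pool.Agent.Helper38K9.PT.J
import Pool.Agent.Helper38K9.PT.Pent1
import Pool.Agent.Helper38K9.PT.Pent2

/-!
# MP_86e34a_co: the bound `m⁶ / n⁷` for pentagons in linear triple systems is never tight

For every `C` there is `K` such that for all `n ≥ 1` and `m` with
`K n^{3/2} ≤ m ≤ n² / K`, every linear triple system with `n` vertices and `m` edges has more than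
`C m⁶ / n⁷` pentagons. In particular the answer to Q1 is negative.
-/

namespace Pool.Agent.Results.MP_86e34a_co.NeverTight

open Finset Pool.Agent.Helper38K9.PT

theorem strong (C : ℝ) (hC : 0 < C) : ∃ K : ℝ, 0 < K ∧ ∀ n m : ℕ, 1 ≤ n →
    K * (n : ℝ) ^ (3 / 2 : ℝ) ≤ m → (m : ℝ) ≤ (n : ℝ) ^ 2 / K →
    ∀ H : LTS (Fin n), H.edges.card = m → C * (m : ℝ) ^ 6 / (n : ℝ) ^ 7 < H.pentagons := by
  obtain ⟨A, δ0, hA, hδ0, happ⟩ := app fk jlow pent1 (15 ^ 5 * C) (by positivity)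
  refine ⟨A + 6 / δ0, by positivity, ?_⟩
  intro n m hn hm1 hm2 H hH
  set K : ℝ := A + 6 / δ0 with hK
  have hK0 : 0 < K := by positivity
  have hn0 : (0 : ℝ) < n := by exact_mod_cast hn
  have : Nonempty (Fin n) := ⟨⟨0, hn⟩⟩
  have hm0 : (0 : ℝ) < m := lt_of_lt_of_le (by positivity) hm1
  set δ : ℝ := 6 * m / (n : ℝ) ^ 2 with hδ
  have hδpos : 0 < δ := by positivity
  have hcard : (Fintype.card (Fin n) : ℝ) = n := by simp
  have h1 : δ ≤ δ0 := by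
    rw [hδ, div_le_iff₀ (by positivity)]
    rw [le_div_iff₀ hK0] at hm2
    have h2 : (m : ℝ) * (6 / δ0) ≤ (n : ℝ) ^ 2 := by
      refine le_trans ?_ hm2
      apply mul_le_mul_of_nonneg_left _ hm0.le
      rw [hK]; linarith
    rw [mul_div_assoc', div_le_iff₀ hδ0] at h2
    linarith
  have h2 : A ≤ δ ^ 2 * n := by
    have h3 : (K * (n : ℝ) ^ (3 / 2 : ℝ)) ^ 2 = K ^ 2 * (n : ℝ) ^ 3 := by
      rw [mul_pow, ← Real.rpow_natCast ((n : ℝ) ^ (3 / 2 : ℝ)) 2, ← Real.rpow_mul hn0.le]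
      congr 1
      rw [show (3 / 2 : ℝ) * ((2 : ℕ) : ℝ) = ((3 : ℕ) : ℝ) by norm_num, Real.rpow_natCast]
    have h4 : K ^ 2 * (n : ℝ) ^ 3 ≤ (m : ℝ) ^ 2 := by
      rw [← h3]
      exact pow_le_pow_left₀ (by positivity) hm1 2
    have h5 : δ ^ 2 * n = 36 * (m : ℝ) ^ 2 / (n : ℝ) ^ 3 := by
      rw [hδ]; field_simp; ring
    rw [h5, le_div_iff₀ (by positivity)]
    have h6 : A ≤ K := by
      have : 0 ≤ 6 / δ0 := by positivity
      rw [hK]; linarith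
    have h7 : A ≤ K ^ 2 := by nlinarith
    have h8 : (0 : ℝ) < (n : ℝ) ^ 3 := by positivity
    nlinarith
  have h3 := happ (Fin n) H δ hδpos h1 (by
    rw [hH, hcard, hδ]; field_simp) (by rw [hcard]; exact h2)
  rw [hcard] at h3
  have h4 : (H.G5 : ℝ) ≤ 15 ^ 5 * H.pentagons := by
    have := pent2 (Fin n) H
    exact_mod_cast this
  have h5 : C * δ ^ 6 * (n : ℝ) ^ 5 < H.pentagons := by
    have h6 : 15 ^ 5 * (C * δ ^ 6 * (n : ℝ) ^ 5) < 15 ^ 5 * (H.pentagons : ℝ) := by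
      have h9 : (15 : ℝ) ^ 5 * (C * δ ^ 6 * (n : ℝ) ^ 5) =
          15 ^ 5 * C * δ ^ 6 * (n : ℝ) ^ 5 := by ring
      rw [h9]
      exact lt_of_lt_of_le h3 h4
    exact lt_of_mul_lt_mul_left h6 (by positivity)
  refine lt_of_le_of_lt ?_ h5
  have h7 : C * δ ^ 6 * (n : ℝ) ^ 5 = 46656 * (C * (m : ℝ) ^ 6 / (n : ℝ) ^ 7) := by
    rw [hδ]; field_simp; ring
  rw [h7]
  have h8 : 0 ≤ C * (m : ℝ) ^ 6 / (n : ℝ) ^ 7 := by positivity
  linarith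

/-- **The answer to Q1 is negative**, in the whole range. -/
theorem result :
    (∀ C : ℝ, 0 < C → ∃ K : ℝ, 0 < K ∧ ∀ n m : ℕ, 1 ≤ n →
      K * (n : ℝ) ^ (3 / 2 : ℝ) ≤ m → (m : ℝ) ≤ (n : ℝ) ^ 2 / K →
      ∀ H : LTS (Fin n), H.edges.card = m → C * (m : ℝ) ^ 6 / (n : ℝ) ^ 7 < H.pentagons) ∧
    ¬ ∃ C₀ C : ℝ, 0 < C₀ ∧ 0 < C ∧ ∀ n m : ℕ,
      C₀ * (n : ℝ) ^ (3 / 2 : ℝ) < m → (m : ℝ) < (n : ℝ) ^ 2 / C₀ →
      ∃ H : LTS (Fin n), H.edges.card = m ∧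
        (H.pentagons : ℝ) ≤ C * (m : ℝ) ^ 6 / (n : ℝ) ^ 7 := by
  refine ⟨strong, ?_⟩
  rintro ⟨C₀, C, hC₀, hC, hcon⟩
  obtain ⟨K, hK, hstr⟩ := strong C hC
  obtain ⟨k, hk⟩ := exists_nat_gt (max C₀ K)
  have hk1 : C₀ < k := (le_max_left _ _).trans_lt hk
  have hk2 : K < k := (le_max_right _ _).trans_lt hk
  have hk0 : (0 : ℝ) < k := hC₀.trans hk1
  have hk0' : 1 ≤ k := by exact_mod_cast hk0
  set t : ℕ := k ^ 2 + 1 with ht
  have ht0 : (0 : ℝ) < t := by positivity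
  have htk : (k : ℝ) ^ 2 < t := by rw [ht]; push_cast; linarith
  set n : ℕ := t ^ 2 with hn
  set m : ℕ := k * t ^ 3 with hm
  have hn32 : (n : ℝ) ^ (3 / 2 : ℝ) = (t : ℝ) ^ 3 := by
    rw [hn]
    push_cast
    rw [← Real.rpow_natCast (t : ℝ) 2, ← Real.rpow_mul ht0.le]
    rw [show ((2 : ℕ) : ℝ) * (3 / 2 : ℝ) = ((3 : ℕ) : ℝ) by norm_num, Real.rpow_natCast]
  have hup : ∀ c : ℝ, 0 < c → c < k → (m : ℝ) < (n : ℝ) ^ 2 / c := by
    intro c hc hck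
    rw [lt_div_iff₀ hc, hm, hn]
    push_cast
    have h1 : (k : ℝ) * c < t := by nlinarith
    calc (k : ℝ) * (t : ℝ) ^ 3 * c = (k * c) * (t : ℝ) ^ 3 := by ring
      _ < t * (t : ℝ) ^ 3 := mul_lt_mul_of_pos_right h1 (by positivity)
      _ = ((t : ℝ) ^ 2) ^ 2 := by ring
  have hlow : ∀ c : ℝ, c < k → c * (n : ℝ) ^ (3 / 2 : ℝ) < m := by
    intro c hck
    rw [hn32, hm]
    push_cast
    exact mul_lt_mul_of_pos_right hck (by positivity)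
  obtain ⟨H, hH1, hH2⟩ := hcon n m (hlow C₀ hk1) (hup C₀ hC₀ hk1)
  have hn1 : 1 ≤ n := Nat.one_le_iff_ne_zero.2 (by positivity)
  have := hstr n m hn1 (hlow K hk2).le (hup K hK hk2).le H hH1
  linarith

end Pool.Agent.Results.MP_86e34a_co.NeverTight
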